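import Pool.Agent.Work.MP_d8cfe3_al.Printed

namespace Pool.Agent.Results.MP_d8cfe3_al.AsPrinted

open Polynomial Pool.Agent.Work.MP_d8cfe3_al

/-- With the expansions exactly as printed in the problem file, the identity fails for every
`p ≥ 1`. -/
theorem result (p : ℕ) (hp : 1 ≤ p) :
    (Function.support (termPrinted p)).Finite ∧
    ¬ ∃ A : ℚ,
      ∑ᶠ i, termPrinted p i =
        C A * binom (X + (p : ℚ[X]) + C (1 / 2)) (4 * p) *
          binom (X + 2 * (p : ℚ[X])) (4 * p - 1) * binom X (4 * p - 1) :=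
  ⟨support_finite false p hp, printed p hp⟩

end Pool.Agent.Results.MP_d8cfe3_al.AsPrinted
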