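import Pool.Agent.Work.MP_d8cfe3_al.Final

namespace Pool.Agent.Results.MP_d8cfe3_al.Intended

open Polynomial Pool.Agent.Work.MP_d8cfe3_al

/-- The five-variable residue identity of type D2, for every `p ≥ 1`, with the second factor of
exponent `-4p` expanded as `(x_2 - x_0)^(-4p)`. -/
theorem result (p : ℕ) (hp : 1 ≤ p) :
    (Function.support (termSwapped p)).Finite ∧
    ∃ A : ℚ, A ≠ 0 ∧
      ∑ᶠ i, termSwapped p i =
        C A * binom (X + (p : ℚ[X]) + C (1 / 2)) (4 * p) *
          binom (X + 2 * (p : ℚ[X])) (4 * p - 1) * binom X (4 * p - 1) :=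
  ⟨support_finite true p hp, swapped p hp⟩

end Pool.Agent.Results.MP_d8cfe3_al.Intended
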